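import Mathlib

/-! The order at the origin of a map of `ℂⁿ` with homogeneous components. -/

set_option autoImplicit false

namespace Pool.Agent.Helper5_germ

/-- the diagonal map `w ↦ (l ^ (N i) * w i)_i` -/
noncomputable def diagMap {n : ℕ} (N : Fin n → ℕ) (l : ℂ) : (Fin n → ℂ) →L[ℂ] (Fin n → ℂ) :=
  ContinuousLinearMap.pi (fun i => (l ^ (N i)) • ContinuousLinearMap.proj i)

theorem diagMap_apply {n : ℕ} (N : Fin n → ℕ) (l : ℂ) (w : Fin n → ℂ) (i : Fin n) :
    diagMap N l w i = l ^ (N i) * w i := by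
  simp [diagMap]

/-- components of the derivatives of a homogeneous map at the origin vanish off the degree -/
theorem iteratedFDeriv_homog {n : ℕ} (F : (Fin n → ℂ) → (Fin n → ℂ)) (N : Fin n → ℕ)
    (hF : ContDiff ℂ ⊤ F) (hom : ∀ (l : ℂ) (z : Fin n → ℂ) (i : Fin n), F (l • z) i = l ^ (N i) * F z i)
    (m : ℕ) (h : Fin m → (Fin n → ℂ)) (i : Fin n) (hm : m ≠ N i) :
    iteratedFDeriv ℂ m F 0 h i = 0 := by
  have hle : (m : WithTop ℕ∞) ≤ ((⊤ : ℕ∞) : WithTop ℕ∞) := by exact_mod_cast le_top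
  have hF' : ContDiff ℂ ((⊤ : ℕ∞) : WithTop ℕ∞) F := hF.of_le le_top
  set g : (Fin n → ℂ) →L[ℂ] (Fin n → ℂ) := (2 : ℂ) • ContinuousLinearMap.id ℂ (Fin n → ℂ) with hg
  have e1 : F ∘ g = (diagMap N 2) ∘ F := by
    funext z
    funext i
    simp only [Function.comp]
    rw [diagMap_apply, ← hom]
    rfl
  have e2 := ContinuousLinearMap.iteratedFDeriv_comp_right g hF' 0 hle
  have e3 := ContinuousLinearMap.iteratedFDeriv_comp_left (x := (0 : Fin n → ℂ)) (diagMap N 2)
    hF'.contDiffAt hle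
  rw [e1, e3] at e2
  have e4 := congrFun (congrArg (fun T => T h) e2) i
  simp only [ContinuousLinearMap.compContinuousMultilinearMap_coe, Function.comp_apply,
    diagMap_apply, ContinuousMultilinearMap.compContinuousLinearMap_apply, map_zero] at e4
  have e5 : (fun j => g (h j)) = fun j => (2 : ℂ) • h j := by
    funext j
    simp [hg]
  rw [e5, ContinuousMultilinearMap.map_smul_univ] at e4
  simp only [Finset.prod_const, Finset.card_univ, Fintype.card_fin, Pi.smul_apply, smul_eq_mul] at e4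
  have e6 : ((2:ℂ) ^ (N i) - 2 ^ m) * iteratedFDeriv ℂ m F 0 h i = 0 := by
    rw [sub_mul, e4, sub_self]
  rcases mul_eq_zero.mp e6 with h7 | h7
  · exfalso
    apply hm
    have h8 : (2:ℂ) ^ m = 2 ^ (N i) := (sub_eq_zero.mp h7).symm
    have h9 : (2:ℕ) ^ m = 2 ^ (N i) := by exact_mod_cast h8
    exact Nat.pow_right_injective le_rfl h9
  · exact h7

/-- The order at the origin of a map with homogeneous nonzero components is the least degree. -/
theorem order_homog {n : ℕ} (F : (Fin n → ℂ) → (Fin n → ℂ)) (N : Fin n → ℕ)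
    (hF : ContDiff ℂ ⊤ F) (hom : ∀ (l : ℂ) (z : Fin n → ℂ) (i : Fin n), F (l • z) i = l ^ (N i) * F z i)
    (z : Fin n → ℂ) (hz : ∀ i, F z i ≠ 0) (i₀ : Fin n) (hi : ∀ i, N i₀ ≤ N i) :
    sInf {m : ℕ | iteratedFDeriv ℂ m F 0 ≠ 0} = N i₀ := by
  have hF' : ContDiff ℂ ((⊤ : ℕ∞) : WithTop ℕ∞) F := hF.of_le le_top
  have hmem : iteratedFDeriv ℂ (N i₀) F 0 ≠ 0 := by
    intro h0
    have hle : ((N i₀ : ℕ) : WithTop ℕ∞) ≤ ((⊤ : ℕ∞) : WithTop ℕ∞) := by exact_mod_cast le_top
    -- restrict to the line through z and project to the coordinate i₀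
    set g : ℂ →L[ℂ] (Fin n → ℂ) := ContinuousLinearMap.toSpanSingleton ℂ z with hg
    have e2 := ContinuousLinearMap.iteratedFDeriv_comp_right g hF' 0 hle
    set p : (Fin n → ℂ) →L[ℂ] ℂ := ContinuousLinearMap.proj i₀ with hp
    have e3 := ContinuousLinearMap.iteratedFDeriv_comp_left (x := (0 : ℂ)) p
      (hF'.comp g.contDiff).contDiffAt hle
    have e4 : iteratedFDeriv ℂ (N i₀) (F ∘ g) 0 = 0 := by
      rw [e2, map_zero, h0]
      ext v
      simp
    rw [e4] at e3
    have e5 : (p ∘ (F ∘ g)) = fun t : ℂ => (F z i₀) * t ^ (N i₀) := by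
      funext t
      simp only [Function.comp, hp, hg, ContinuousLinearMap.toSpanSingleton_apply,
        ContinuousLinearMap.proj_apply]
      rw [hom]
      ring
    have e6 : iteratedDeriv (N i₀) (p ∘ (F ∘ g)) 0 = 0 := by
      rw [iteratedDeriv_eq_iteratedFDeriv, e3]
      simp
    rw [e5, iteratedDeriv_const_mul _ (by fun_prop), iteratedDeriv_fun_pow_zero] at e6
    simp only [if_true] at e6
    rcases mul_eq_zero.mp e6 with h7 | h7
    · exact hz i₀ h7
    · exact Nat.factorial_ne_zero _ (by exact_mod_cast h7)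
  apply le_antisymm
  · exact Nat.sInf_le hmem
  · apply le_csInf ⟨_, hmem⟩
    intro m hm
    by_contra hlt
    push Not at hlt
    apply hm
    ext h i
    have := iteratedFDeriv_homog F N hF hom m h i (by have := hi i; omega)
    simpa using this

end Pool.Agent.Helper5_germ
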