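import Pool.Agent.Helper5_germ.Seq
import Pool.Agent.Helper5_germ.Order

/-! The monomial map `(x, y, z) ↦ (z², x² y, x y² z)` of `ℂ³`. -/

set_option autoImplicit false
set_option maxHeartbeats 4000000

open Finset

namespace Pool.Agent.Helper5_germ

/-- the monomial map `(x, y, z) ↦ (z², x² y, x y² z)` -/
noncomputable def F (z : Fin 3 → ℂ) : Fin 3 → ℂ :=
  ![z 2 ^ 2, z 0 ^ 2 * z 1, z 0 * z 1 ^ 2 * z 2]

theorem contDiff_F : ContDiff ℂ ⊤ F := by
  rw [contDiff_pi]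
  intro i
  fin_cases i
  · show ContDiff ℂ ⊤ (fun z : Fin 3 → ℂ => z 2 ^ 2)
    fun_prop
  · show ContDiff ℂ ⊤ (fun z : Fin 3 → ℂ => z 0 ^ 2 * z 1)
    fun_prop
  · show ContDiff ℂ ⊤ (fun z : Fin 3 → ℂ => z 0 * z 1 ^ 2 * z 2)
    fun_prop

theorem contDiff_iter (k : ℕ) : ContDiff ℂ ⊤ (F^[k]) := by
  induction k with
  | zero => exact contDiff_id
  | succ k ih =>
    rw [Function.iterate_succ']
    exact contDiff_F.comp ih

theorem hom_iter (k : ℕ) (l : ℂ) (z : Fin 3 → ℂ) (i : Fin 3) :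
    F^[k] (l • z) i = l ^ (deg k i) * F^[k] z i := by
  induction k generalizing i with
  | zero => simp [deg]
  | succ k ih =>
    rw [Function.iterate_succ_apply', Function.iterate_succ_apply']
    fin_cases i
    · show (F^[k] (l • z) 2) ^ 2 = l ^ (deg (k + 1) 0) * (F^[k] z 2) ^ 2
      rw [ih 2, deg_succ0]; ring
    · show (F^[k] (l • z) 0) ^ 2 * (F^[k] (l • z) 1) =
        l ^ (deg (k + 1) 1) * ((F^[k] z 0) ^ 2 * (F^[k] z 1))
      rw [ih 0, ih 1, deg_succ1]; ring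
    · show (F^[k] (l • z) 0) * (F^[k] (l • z) 1) ^ 2 * (F^[k] (l • z) 2) =
        l ^ (deg (k + 1) 2) * ((F^[k] z 0) * (F^[k] z 1) ^ 2 * (F^[k] z 2))
      rw [ih 0, ih 1, ih 2, deg_succ2]; ring

theorem iter_one (k : ℕ) : F^[k] (fun _ => 1) = fun _ => 1 := by
  induction k with
  | zero => rfl
  | succ k ih =>
    rw [Function.iterate_succ_apply', ih]
    funext i
    fin_cases i <;> simp [F]

/-- the order of the `k`-th iterate -/
theorem order_iter (k : ℕ) : sInf {m : ℕ | iteratedFDeriv ℂ m (F^[k]) 0 ≠ 0} = w k := by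
  obtain ⟨h1, h2, h3⟩ := deg_ineq k
  by_cases hmin : deg k 0 ≤ deg k 1
  · rw [order_homog (F^[k]) (deg k) (contDiff_iter k) (fun l z i => hom_iter k l z i) (fun _ => 1)
      (fun i => by rw [iter_one]; exact one_ne_zero) 0 ?_]
    · rw [w, min_eq_left hmin]
    · intro i
      fin_cases i
      · exact le_rfl
      · exact hmin
      · exact hmin.trans h1
  · push Not at hmin
    rw [order_homog (F^[k]) (deg k) (contDiff_iter k) (fun l z i => hom_iter k l z i) (fun _ => 1)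
      (fun i => by rw [iter_one]; exact one_ne_zero) 1 ?_]
    · rw [w, min_eq_right hmin.le]
    · intro i
      fin_cases i
      · exact hmin.le
      · exact le_rfl
      · exact h1

/-- the Jacobian matrix of `F` -/
noncomputable def Jac (z : Fin 3 → ℂ) : Matrix (Fin 3) (Fin 3) ℂ :=
  !![0, 0, 2 * z 2; 2 * z 0 * z 1, z 0 ^ 2, 0; z 1 ^ 2 * z 2, 2 * z 0 * z 1 * z 2, z 0 * z 1 ^ 2]

theorem hasFDerivAt_F (z : Fin 3 → ℂ) :
    HasFDerivAt F (LinearMap.toContinuousLinearMap (Matrix.toLin' (Jac z))) z := by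
  have hp : ∀ i : Fin 3, HasFDerivAt (fun y : Fin 3 → ℂ => y i)
      (ContinuousLinearMap.proj (R := ℂ) (φ := fun _ : Fin 3 => ℂ) i) z := fun i =>
    (ContinuousLinearMap.proj (R := ℂ) (φ := fun _ : Fin 3 => ℂ) i).hasFDerivAt
  rw [hasFDerivAt_pi']
  intro i
  fin_cases i
  · show HasFDerivAt (fun y : Fin 3 → ℂ => y 2 ^ 2) _ z
    refine ((hp 2).pow 2).congr_fderiv ?_
    ext h
    simp [Jac, Matrix.toLin'_apply, Matrix.mulVec, dotProduct, Fin.sum_univ_three]
  · show HasFDerivAt (fun y : Fin 3 → ℂ => y 0 ^ 2 * y 1) _ z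
    refine (((hp 0).pow 2).mul (hp 1)).congr_fderiv ?_
    ext h
    simp [Jac, Matrix.toLin'_apply, Matrix.mulVec, dotProduct, Fin.sum_univ_three]
    ring
  · show HasFDerivAt (fun y : Fin 3 → ℂ => y 0 * y 1 ^ 2 * y 2) _ z
    refine (((hp 0).mul ((hp 1).pow 2)).mul (hp 2)).congr_fderiv ?_
    ext h
    simp [Jac, Matrix.toLin'_apply, Matrix.mulVec, dotProduct, Fin.sum_univ_three]
    ring

theorem det_fderiv (z : Fin 3 → ℂ) : (fderiv ℂ F z).det = (Jac z).det := by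
  rw [(hasFDerivAt_F z).fderiv]
  show LinearMap.det _ = _
  rw [LinearMap.coe_toContinuousLinearMap, LinearMap.det_toLin']

theorem det_Jac (z : Fin 3 → ℂ) :
    (Jac z).det = 2 * z 2 * (4 * z 0 ^ 2 * z 1 ^ 2 * z 2 - z 0 ^ 2 * z 1 ^ 2 * z 2) := by
  rw [Jac, Matrix.det_fin_three]
  simp
  ring

end Pool.Agent.Helper5_germ
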