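import Mathlib

/-! Slow rotation along an arithmetic progression, and decimation of linear recurrences. -/

set_option autoImplicit false
set_option maxHeartbeats 4000000

open Finset

namespace Pool.Agent.Helper5_germ

/-- Along a suitable arithmetic progression the sine of an irrational rotation has a long run of
one sign followed by the other sign. -/
theorem slow_rotation (x : ℝ) (hx : Irrational x) (τ : ℝ) (hτ : τ = 1 ∨ τ = -1) (r K : ℕ) :
    ∃ N j : ℕ, 0 < N ∧ K ≤ j ∧
      (∀ i, i < r → 0 ≤ τ * Real.sin (2 * Real.pi * x * ((j + i * N : ℕ) : ℝ))) ∧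
      ∃ i, τ * Real.sin (2 * Real.pi * x * ((j + i * N : ℕ) : ℝ)) < 0 := by
  have hpi := Real.pi_pos
  obtain ⟨p, k, hk0, hkn, hkp⟩ := Real.exists_int_int_abs_mul_sub_le x (n := 2 * r + 4) (by omega)
  obtain ⟨N, rfl⟩ : ∃ N : ℕ, k = N := ⟨k.toNat, by omega⟩
  have hN0 : 0 < N := by exact_mod_cast hk0
  set β : ℝ := (N : ℝ) * x - p with hβ
  have hβne : β ≠ 0 := by
    intro h0
    have h1 : (N : ℝ) * x = p := by linarith
    have hN' : (N : ℝ) ≠ 0 := by positivity
    have h2 : x = ((p / N : ℚ) : ℝ) := by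
      push_cast
      field_simp
      linarith
    exact hx ⟨_, h2.symm⟩
  have hβle : |β| ≤ 1 / ((2 * r + 4 : ℕ) + 1 : ℝ) := by
    have := hkp
    push_cast at this ⊢
    exact this
  set γ : ℝ := |β| with hγ
  have hγ0 : 0 < γ := abs_pos.mpr hβne
  have hγr : γ * (2 * r + 5) ≤ 1 := by
    have h1 : ((2 * r + 4 : ℕ) + 1 : ℝ) = 2 * r + 5 := by push_cast; ring
    rw [h1, le_div_iff₀ (by positivity)] at hβle
    exact hβle
  -- sign of β
  obtain ⟨s, hs, hsβ⟩ : ∃ s : ℝ, (s = 1 ∨ s = -1) ∧ β = s * γ := by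
    rcases lt_or_gt_of_ne hβne with h | h
    · exact ⟨-1, Or.inr rfl, by rw [hγ, abs_of_neg h]; ring⟩
    · exact ⟨1, Or.inl rfl, by rw [hγ, abs_of_pos h]; ring⟩
  have hsin : ∀ l : ℕ, Real.sin (2 * Real.pi * x * ((l * N : ℕ) : ℝ)) =
      s * Real.sin (2 * Real.pi * (l * γ)) := by
    intro l
    have h1 : 2 * Real.pi * x * ((l * N : ℕ) : ℝ) =
        2 * Real.pi * (l * β) + ((l * p : ℤ) : ℝ) * (2 * Real.pi) := by
      push_cast
      rw [hβ]
      ring
    rw [h1, Real.sin_add_int_mul_two_pi, hsβ]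
    rcases hs with rfl | rfl
    · ring_nf
    · rw [show 2 * Real.pi * ((l : ℝ) * (-1 * γ)) = -(2 * Real.pi * (l * γ)) by ring, Real.sin_neg]
      ring
  -- combined sign and offset
  obtain ⟨h, hh0, hh1, hτs⟩ : ∃ h : ℝ, 0 ≤ h ∧ h ≤ 1 ∧
      ∀ y : ℝ, τ * (s * Real.sin (2 * Real.pi * (h + y))) = Real.sin (2 * Real.pi * y) := by
    have hprod : τ * s = 1 ∨ τ * s = -1 := by
      rcases hτ with rfl | rfl <;> rcases hs with rfl | rfl <;> norm_num
    rcases hprod with hp | hp
    · refine ⟨0, le_rfl, zero_le_one, fun y => ?_⟩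
      rw [← mul_assoc, hp, zero_add, one_mul]
    · refine ⟨1 / 2, by norm_num, by norm_num, fun y => ?_⟩
      rw [← mul_assoc, hp]
      have : 2 * Real.pi * (1 / 2 + y) = 2 * Real.pi * y + Real.pi := by ring
      rw [this, Real.sin_add_pi]
      ring
  set l₀ : ℕ := ⌈((K : ℝ) + h) / γ⌉₊ with hl₀
  have hl1 : (K : ℝ) + h ≤ l₀ * γ := by
    have := Nat.le_ceil (((K : ℝ) + h) / γ)
    rwa [div_le_iff₀ hγ0] at this
  have hl2 : l₀ * γ < (K : ℝ) + h + γ := by
    have := Nat.ceil_lt_add_one (a := ((K : ℝ) + h) / γ) (by positivity)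
    have h3 : (l₀ : ℝ) * γ < (((K : ℝ) + h) / γ + 1) * γ := mul_lt_mul_of_pos_right this hγ0
    have h4 : (((K : ℝ) + h) / γ + 1) * γ = (K : ℝ) + h + γ := by field_simp
    linarith
  have hval : ∀ i : ℕ, τ * Real.sin (2 * Real.pi * x * ((l₀ * N + i * N : ℕ) : ℝ)) =
      Real.sin (2 * Real.pi * (l₀ * γ - K - h + i * γ)) := by
    intro i
    have h1 : l₀ * N + i * N = (l₀ + i) * N := by ring
    rw [h1, hsin (l₀ + i)]
    have h2 : 2 * Real.pi * (((l₀ + i : ℕ) : ℝ) * γ) =
        2 * Real.pi * (h + (l₀ * γ - K - h + i * γ)) + ((K : ℤ) : ℝ) * (2 * Real.pi) := by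
      push_cast
      ring
    rw [h2, Real.sin_add_int_mul_two_pi, hτs]
  refine ⟨N, l₀ * N, hN0, ?_, ?_, ?_⟩
  · have hγ1 : γ ≤ 1 := by
      have : (0:ℝ) ≤ r := Nat.cast_nonneg r
      nlinarith
    have h1 : (K : ℝ) ≤ l₀ := by
      have : (l₀ : ℝ) * γ ≤ l₀ := mul_le_of_le_one_right (Nat.cast_nonneg _) hγ1
      linarith
    have h2 : K ≤ l₀ := by exact_mod_cast h1
    calc K ≤ l₀ := h2
      _ = l₀ * 1 := (mul_one _).symm
      _ ≤ l₀ * N := Nat.mul_le_mul_left _ hN0
  · intro i hi
    rw [hval i]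
    have hir : ((i : ℝ) + 1) ≤ r := by exact_mod_cast hi
    apply Real.sin_nonneg_of_nonneg_of_le_pi
    · have : 0 ≤ l₀ * γ - K - h + i * γ := by
        have : 0 ≤ (i : ℝ) * γ := by positivity
        linarith
      positivity
    · have h1 : l₀ * γ - K - h + i * γ ≤ 1 / 2 := by
        have h2 : (i : ℝ) * γ + γ ≤ r * γ := by nlinarith
        nlinarith
      nlinarith
  · set i : ℕ := ⌊1 / (2 * γ)⌋₊ + 1 with hi
    refine ⟨i, ?_⟩
    rw [hval i]
    have h1 : 1 / 2 < (i : ℝ) * γ := by
      have := Nat.lt_floor_add_one (1 / (2 * γ))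
      rw [div_lt_iff₀ (by positivity)] at this
      rw [hi]
      push_cast
      linarith
    have h2 : (i : ℝ) * γ ≤ 1 / 2 + γ := by
      have := Nat.floor_le (a := 1 / (2 * γ)) (by positivity)
      have h3 : (⌊1 / (2 * γ)⌋₊ : ℝ) * γ ≤ 1 / (2 * γ) * γ := mul_le_mul_of_nonneg_right this hγ0.le
      have h4 : 1 / (2 * γ) * γ = 1 / 2 := by field_simp
      rw [hi]
      push_cast
      linarith
    have h3 : γ ≤ 1 / 5 := by
      have : (0:ℝ) ≤ r := Nat.cast_nonneg r
      nlinarith
    set y : ℝ := l₀ * γ - K - h + i * γ with hy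
    have hy1 : 1 / 2 < y := by linarith
    have hy2 : y < 1 := by linarith
    have h5 : Real.sin (2 * Real.pi * y) = - Real.sin (2 * Real.pi * y - Real.pi) := by
      rw [Real.sin_sub_pi]; ring
    rw [h5, neg_lt_zero]
    apply Real.sin_pos_of_pos_of_lt_pi
    · nlinarith
    · nlinarith

/-- the shift of a sequence by `k` -/
def sh (k : ℕ) (x : ℕ → ℝ) : ℕ → ℝ := fun n => x (n + k)

/-- a recurrent sequence has all its shifts in the span of the first ones -/
theorem sh_mem_span (d : ℕ) (a : Fin d → ℝ) (x : ℕ → ℝ)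
    (hx : ∀ k, x (k + d) = ∑ i : Fin d, a i * x (k + i)) (k : ℕ) :
    sh k x ∈ Submodule.span ℝ (Set.range (fun i : Fin d => sh i x)) := by
  induction k using Nat.strong_induction_on with
  | _ k ih =>
    by_cases hk : k < d
    · exact Submodule.subset_span ⟨⟨k, hk⟩, rfl⟩
    · push Not at hk
      have h1 : sh k x = ∑ i : Fin d, a i • sh (k - d + i) x := by
        funext n
        have h2 := hx (n + (k - d))
        simp only [sh, Finset.sum_apply, Pi.smul_apply, smul_eq_mul]
        rw [show n + k = n + (k - d) + d by omega, h2]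
        refine Finset.sum_congr rfl (fun i _ => ?_)
        rw [add_assoc]
      rw [h1]
      refine Submodule.sum_mem _ (fun i _ => Submodule.smul_mem _ _ (ih _ ?_))
      have := i.2
      omega

/-- If all shifts of `x` lie in a finite-dimensional space of dimension at most `r`, then along any
arithmetic progression `r` consecutive zeros propagate. -/
theorem zeros_propagate (V : Submodule ℝ (ℕ → ℝ)) [FiniteDimensional ℝ V] (r : ℕ)
    (hV : Module.finrank ℝ V ≤ r) (x : ℕ → ℝ) (hx : ∀ k, sh k x ∈ V) (N j : ℕ)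
    (h0 : ∀ i, i < r → x (j + i * N) = 0) : ∀ i, x (j + i * N) = 0 := by
  classical
  let v : Fin (r + 1) → V := fun i => ⟨sh (i * N) x, hx _⟩
  have hdep : ¬ LinearIndependent ℝ v := by
    intro h
    have := h.fintype_card_le_finrank
    rw [Fintype.card_fin] at this
    omega
  obtain ⟨g, hg, i₁, hi₁⟩ := Fintype.not_linearIndependent_iff.mp hdep
  -- the largest index with nonzero coefficient
  set S : Finset (Fin (r + 1)) := Finset.univ.filter (fun i => g i ≠ 0) with hS
  have hSne : S.Nonempty := ⟨i₁, by simp [hS, hi₁]⟩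
  set t := S.max' hSne with ht
  have htS : t ∈ S := S.max'_mem hSne
  have hgt : g t ≠ 0 := (Finset.mem_filter.mp htS).2
  have hlast : ∀ i, t < i → g i = 0 := by
    intro i hi
    by_contra h
    have : i ≤ t := S.le_max' i (Finset.mem_filter.mpr ⟨Finset.mem_univ _, h⟩)
    exact absurd hi (not_lt.mpr this)
  have hrel : ∀ n, ∑ i : Fin (r + 1), g i * x (n + i * N) = 0 := by
    intro n
    have h1 := congrArg (fun y : V => (y : ℕ → ℝ) n) hg
    simpa [v, sh, Submodule.coe_sum, Finset.sum_apply] using h1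
  intro i
  induction i using Nat.strong_induction_on with
  | _ i ih =>
    by_cases hi : i < r
    · exact h0 i hi
    · push Not at hi
      have htr : (t : ℕ) ≤ i := by have := t.2; omega
      have h1 := hrel (j + (i - t) * N)
      rw [Finset.sum_eq_single t] at h1
      · have h2 : j + (i - t) * N + t * N = j + i * N := by
          rw [add_assoc, ← Nat.add_mul, Nat.sub_add_cancel htr]
        rw [h2] at h1
        exact (mul_eq_zero.mp h1).resolve_left hgt
      · intro l _ hl
        rcases lt_or_gt_of_ne hl with hlt | hgt'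
        · have hlt' : (l : ℕ) < t := hlt
          have h3 := ih (i - t + l) (by omega)
          have h2 : j + (i - t) * N + l * N = j + (i - t + l) * N := by ring
          rw [h2, h3, mul_zero]
        · rw [hlast l hgt', zero_mul]
      · intro h
        exact absurd (Finset.mem_univ _) h

end Pool.Agent.Helper5_germ
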