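import Pool.Agent.Helper5_germ.Rot

/-! The degrees of the iterates of the monomial map `(x, y, z) ↦ (z², x² y, x y² z)` and the failure of
every linear recursion for their minimum. -/

set_option autoImplicit false
set_option maxHeartbeats 4000000

open Finset

namespace Pool.Agent.Helper5_germ

/-- the degrees of the three components of the `k`-th iterate -/
def deg : ℕ → Fin 3 → ℕ
  | 0 => fun _ => 1
  | k + 1 => ![2 * deg k 2, 2 * deg k 0 + deg k 1, deg k 0 + 2 * deg k 1 + deg k 2]

theorem deg_succ0 (k : ℕ) : deg (k + 1) 0 = 2 * deg k 2 := rfl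
theorem deg_succ1 (k : ℕ) : deg (k + 1) 1 = 2 * deg k 0 + deg k 1 := rfl
theorem deg_succ2 (k : ℕ) : deg (k + 1) 2 = deg k 0 + 2 * deg k 1 + deg k 2 := rfl

/-- the third component never has the least degree -/
theorem deg_ineq (k : ℕ) : deg k 1 ≤ deg k 2 ∧ deg k 0 ≤ deg k 1 + deg k 2 ∧
    deg k 2 ≤ 3 * deg k 0 + 3 * deg k 1 := by
  induction k with
  | zero => simp [deg]
  | succ k ih =>
    rw [deg_succ0, deg_succ1, deg_succ2]
    omega

theorem deg_pos (k : ℕ) (i : Fin 3) : 0 < deg k i := by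
  have h : ∀ k, 0 < deg k 0 ∧ 0 < deg k 1 ∧ 0 < deg k 2 := by
    intro k
    induction k with
    | zero => simp [deg]
    | succ k ih =>
      rw [deg_succ0, deg_succ1, deg_succ2]
      omega
  fin_cases i
  · exact (h k).1
  · exact (h k).2.1
  · exact (h k).2.2

/-- the least degree -/
def w (k : ℕ) : ℕ := min (deg k 0) (deg k 1)

/-- the difference of the first two degrees -/
def dd (k : ℕ) : ℤ := (deg k 0 : ℤ) - deg k 1

theorem dd_zero : dd 0 = 0 := by simp [dd, deg]
theorem dd_one : dd 1 = -1 := by simp [dd, deg]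
theorem dd_rec (k : ℕ) : dd (k + 2) = - dd (k + 1) - 2 * dd k := by
  unfold dd
  rw [deg_succ0 (k + 1), deg_succ1 (k + 1), deg_succ0 k, deg_succ1 k, deg_succ2 k]
  push_cast
  ring

theorem dd_odd (k : ℕ) : dd (k + 1) % 2 = 1 := by
  induction k using Nat.twoStepInduction with
  | zero => rw [dd_one]; rfl
  | one => rw [dd_rec 0, dd_one, dd_zero]; rfl
  | more k _ ih =>
    rw [dd_rec (k + 1)]
    omega

theorem dd_ne_zero (k : ℕ) (hk : 0 < k) : dd k ≠ 0 := by
  obtain ⟨m, rfl⟩ : ∃ m, k = m + 1 := ⟨k - 1, by omega⟩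
  intro h
  have := dd_odd m
  rw [h] at this
  simp at this

/-- the eigenvalue `(-1 + i √7)/2` -/
noncomputable def mu : ℂ := ⟨-1 / 2, Real.sqrt 7 / 2⟩

theorem mu_sq : mu ^ 2 = - mu - 2 := by
  have h7 : Real.sqrt 7 * Real.sqrt 7 = 7 := Real.mul_self_sqrt (by norm_num)
  apply Complex.ext
  · simp only [mu, pow_two, Complex.mul_re, Complex.sub_re, Complex.neg_re, Complex.re_ofNat]
    nlinarith
  · simp only [mu, pow_two, Complex.mul_im, Complex.sub_im, Complex.neg_im, Complex.im_ofNat]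
    ring

theorem im_mu_pow (k : ℕ) : (mu ^ k).im = - (dd k : ℝ) * (Real.sqrt 7 / 2) := by
  induction k using Nat.twoStepInduction with
  | zero => simp [dd_zero]
  | one => simp [dd_one, mu]
  | more k ih1 ih2 =>
    have h1 : mu ^ (k + 2) = - mu ^ (k + 1) - 2 * mu ^ k := by
      rw [pow_add, mu_sq]; ring
    rw [h1, Complex.sub_im, Complex.neg_im, ih2]
    have h2 : (2 * mu ^ k).im = 2 * (mu ^ k).im := by simp
    rw [h2, ih1, dd_rec]
    push_cast
    ring

theorem mu_ne : mu ≠ 0 := by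
  intro h
  have := congrArg Complex.re h
  simp [mu] at this

/-- closed form of the imaginary part of the powers -/
theorem im_mu_pow' (k : ℕ) : (mu ^ k).im = ‖mu‖ ^ k * Real.sin (k * mu.arg) := by
  have h1 : mu ^ k = ((‖mu‖ ^ k : ℝ) : ℂ) * Complex.exp (((k * mu.arg : ℝ) : ℂ) * Complex.I) := by
    conv_lhs => rw [← Complex.norm_mul_exp_arg_mul_I mu]
    rw [mul_pow, ← Complex.exp_nat_mul]
    push_cast
    ring_nf
  rw [h1, Complex.im_ofReal_mul, Complex.exp_ofReal_mul_I_im]

theorem norm_mu_pos : 0 < ‖mu‖ := norm_pos_iff.mpr mu_ne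

/-- the angle divided by `2π` -/
noncomputable def ang : ℝ := mu.arg / (2 * Real.pi)

theorem dd_eq (k : ℕ) : (dd k : ℝ) * (Real.sqrt 7 / 2) =
    - (‖mu‖ ^ k * Real.sin (2 * Real.pi * ang * k)) := by
  have h1 := im_mu_pow k
  rw [im_mu_pow' k] at h1
  have h2 : 2 * Real.pi * ang * k = k * mu.arg := by
    unfold ang
    field_simp
  rw [h2]
  linarith

theorem irrational_ang : Irrational ang := by
  rintro ⟨p, hp⟩
  have h1 := dd_eq p.den
  have h2 : 2 * Real.pi * ang * p.den = ((p.num : ℤ) : ℝ) * (2 * Real.pi) := by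
    rw [← hp]
    have h3 : (p : ℝ) * (p.den : ℝ) = (p.num : ℝ) := by
      have := Rat.mul_den_eq_num p
      exact_mod_cast this
    calc 2 * Real.pi * (p : ℝ) * p.den = 2 * Real.pi * ((p : ℝ) * p.den) := by ring
      _ = _ := by rw [h3]; ring
  rw [h2] at h1
  have h4 : Real.sin (((p.num : ℤ) : ℝ) * (2 * Real.pi)) = 0 := by
    have := Real.sin_add_int_mul_two_pi 0 p.num
    rw [zero_add, Real.sin_zero] at this
    exact this
  rw [h4, mul_zero, neg_zero] at h1
  have h5 : (0:ℝ) < Real.sqrt 7 / 2 := by positivity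
  have h6 : (dd p.den : ℝ) = 0 := (mul_eq_zero.mp h1).resolve_right h5.ne'
  exact dd_ne_zero p.den p.pos (by exact_mod_cast h6)

theorem dd_sign (k : ℕ) :
    (0 ≤ (-1) * Real.sin (2 * Real.pi * ang * k) → 0 ≤ dd k) ∧
    ((-1) * Real.sin (2 * Real.pi * ang * k) < 0 → dd k < 0) := by
  have h1 := dd_eq k
  have h2 : (0:ℝ) < Real.sqrt 7 / 2 := by positivity
  have h3 : 0 < ‖mu‖ ^ k := pow_pos norm_mu_pos k
  constructor
  · intro h
    by_contra hneg
    push Not at hneg
    have h4 : (dd k : ℝ) < 0 := by exact_mod_cast hneg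
    nlinarith [mul_nonneg h3.le h]
  · intro h
    by_contra hneg
    push Not at hneg
    have h4 : (0:ℝ) ≤ dd k := by exact_mod_cast hneg
    nlinarith [mul_pos h3 (by linarith : 0 < Real.sin (2 * Real.pi * ang * k))]

theorem deg1_rec (k : ℕ) : deg (k + 3) 1 = 2 * deg (k + 2) 1 + deg (k + 1) 1 + 6 * deg k 1 := by
  rw [deg_succ1 (k + 2), deg_succ0 (k + 1), deg_succ1 (k + 1), deg_succ0 k, deg_succ1 k,
    deg_succ2 k]
  ring

/-- The least degree satisfies no linear recursion. -/
theorem w_not_rec (d : ℕ) (a : Fin d → ℤ) (K : ℕ)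
    (h : ∀ k, K ≤ k → (w (k + d) : ℤ) = ∑ i : Fin d, a i * (w (k + i) : ℤ)) : False := by
  classical
  set W : ℕ → ℝ := fun k => w (k + K) with hW
  set B : ℕ → ℝ := fun k => deg (k + K) 1 with hB
  have hWrec : ∀ k, W (k + d) = ∑ i : Fin d, (a i : ℝ) * W (k + i) := by
    intro k
    have h1 := h (k + K) (by omega)
    have h2 : ((w (k + K + d) : ℤ) : ℝ) = ((∑ i : Fin d, a i * (w (k + K + i) : ℤ) : ℤ) : ℝ) := by
      rw [h1]
    push_cast at h2
    simp only [hW]
    rw [show k + d + K = k + K + d by ring, h2]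
    refine Finset.sum_congr rfl (fun i _ => ?_)
    rw [show k + (i : ℕ) + K = k + K + i by ring]
  have hBrec : ∀ k, B (k + 3) = ∑ i : Fin 3, (![6, 1, 2] : Fin 3 → ℝ) i * B (k + i) := by
    intro k
    simp only [Fin.sum_univ_three, hB, Fin.val_zero, Fin.val_one, Fin.val_two,
      Matrix.cons_val_zero, Matrix.cons_val_one, Matrix.cons_val]
    rw [show k + 3 + K = k + K + 3 by ring, deg1_rec (k + K)]
    rw [show k + 2 + K = k + K + 2 by ring, show k + 1 + K = k + K + 1 by ring,
      show k + 0 + K = k + K by ring]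
    push_cast
    ring
  set V1 := Submodule.span ℝ (Set.range (fun i : Fin d => sh i W)) with hV1
  set V2 := Submodule.span ℝ (Set.range (fun i : Fin 3 => sh i B)) with hV2
  have hf1 : FiniteDimensional ℝ V1 := FiniteDimensional.span_of_finite ℝ (Set.finite_range _)
  have hf2 : FiniteDimensional ℝ V2 := FiniteDimensional.span_of_finite ℝ (Set.finite_range _)
  have hr : Module.finrank ℝ (V1 ⊔ V2 : Submodule ℝ (ℕ → ℝ)) ≤ d + 3 := by
    refine (Submodule.finrank_add_le_finrank_add_finrank V1 V2).trans ?_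
    have h1 : Module.finrank ℝ V1 ≤ d := by
      have := finrank_range_le_card (R := ℝ) (fun i : Fin d => sh i W)
      rwa [Fintype.card_fin] at this
    have h2 : Module.finrank ℝ V2 ≤ 3 := by
      have := finrank_range_le_card (R := ℝ) (fun i : Fin 3 => sh i B)
      rwa [Fintype.card_fin] at this
    omega
  set x : ℕ → ℝ := fun k => W k - B k with hx
  have hxV : ∀ k, sh k x ∈ V1 ⊔ V2 := by
    intro k
    have h1 : sh k x = sh k W - sh k B := rfl
    rw [h1]
    refine Submodule.sub_mem _ ?_ ?_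
    · exact Submodule.mem_sup_left (sh_mem_span d (fun i => (a i : ℝ)) W hWrec k)
    · exact Submodule.mem_sup_right (sh_mem_span 3 _ B hBrec k)
  have hxval : ∀ k, (0 ≤ dd (k + K) → x k = 0) ∧ (dd (k + K) < 0 → x k < 0) := by
    intro k
    have h1 : x k = (min (deg (k + K) 0) (deg (k + K) 1) : ℕ) - (deg (k + K) 1 : ℕ) := rfl
    rw [h1]
    unfold dd
    constructor
    · intro h2
      have h3 : deg (k + K) 1 ≤ deg (k + K) 0 := by omega
      rw [min_eq_right h3, sub_self]
    · intro h2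
      have h3 : deg (k + K) 0 < deg (k + K) 1 := by omega
      rw [min_eq_left h3.le, sub_lt_zero]
      exact_mod_cast h3
  obtain ⟨N, j, hN, hj, hrun, i₁, hi₁⟩ :=
    slow_rotation ang irrational_ang (-1) (Or.inr rfl) (d + 3) K
  have hprop := zeros_propagate (V1 ⊔ V2) (d + 3) hr x hxV N (j - K) (by
    intro i hi
    have h1 := (dd_sign (j + i * N)).1 (hrun i hi)
    apply (hxval _).1
    rwa [show j - K + i * N + K = j + i * N by omega])
  have h2 := (dd_sign (j + i₁ * N)).2 hi₁
  have h3 := (hxval (j - K + i₁ * N)).2 (by rwa [show j - K + i₁ * N + K = j + i₁ * N by omega])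
  rw [hprop i₁] at h3
  exact lt_irrefl _ h3

end Pool.Agent.Helper5_germ
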